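import Pool.Agent.H683.SC.PStm

/-!
# Project SC: keep the input next to the output
-/

set_option autoImplicit false

namespace Pool.Agent.NPC.H876SC

open Turing Pool.Agent.NPC Pool.Agent.H633R2 Pool.Agent.H683.SC
open Function (update)

theorem EC.of_PC {α β : Type} {ea : α → List Bool} {eb : β → List Bool} (E : α → ℕ) {f : α → β}
    (h : PC ea eb f) : EC ea eb E f := by
  obtain ⟨c, p, h⟩ := h
  exact ⟨c, 0, p, fun a => by simpa using h a⟩

theorem EC.length_le {α β : Type} {ea : α → List Bool} {eb : β → List Bool} {E : α → ℕ}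
    {f : α → β} (h : EC ea eb E f) : ∃ (C : ℕ) (q : Polynomial ℕ),
      ∀ a, (eb (f a)).length ≤ 2 ^ (C * E a) * q.eval (ea a).length := by
  obtain ⟨c, C, p, hc⟩ := h
  refine ⟨C, Polynomial.X + p, fun a => ?_⟩
  obtain ⟨t, ht, hr⟩ := hc a
  have := hr.length_le 0
  simp only [inp, Function.update_self] at this
  simp only [Polynomial.eval_add, Polynomial.eval_X]
  have h1 : 1 ≤ 2 ^ (C * E a) := Nat.one_le_two_pow
  nlinarith [Nat.mul_le_mul_right (ea a).length h1]

/-- Pairing, for outputs coded by trees. -/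
theorem EC.node {α : Type} {ea : α → List Bool} {E : α → ℕ} {f g : α → T}
    (hf : EC ea T.enc E f) (hg : EC ea T.enc E g) :
    EC ea T.enc E (fun a => T.node (f a) (g a)) := by
  obtain ⟨K, q, hq⟩ := EC.length_le hf
  obtain ⟨K', q', hq'⟩ := EC.length_le hg
  obtain ⟨c, C, p, hf⟩ := hf
  obtain ⟨d, C', r, hg⟩ := hg
  refine ⟨Cmd.seq (Cmd.seq (mv 0 2) (cp 2 0 1)) (Cmd.seq (ev c) (Cmd.seq (od d)
    (Cmd.seq (mv 0 2) (Cmd.seq (mv 2 1) (Cmd.seq (Cmd.push 1 true)
      (Cmd.seq (mv 1 2) (mv 2 0))))))), C + C' + K + K',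
    Polynomial.C 9 * Polynomial.X + p + r + Polynomial.C 16 * (q + q') + Polynomial.C 30,
    fun a => ?_⟩
  rw [inp_eq_st, inp_eq_st]
  have h1 := dup_runs (ea a)
  have h2 := ev_runs (hf a) (ea a)
  have h3 := od_runs (hg a) (f a).enc
  have h4 := mv_runs (i := 0) (j := 2) (by decide) (f a).enc (st (f a).enc (g a).enc [])
    (st [] (g a).enc (f a).enc.reverse) rfl (by simp)
  have h5 := mv_runs (i := 2) (j := 1) (by decide) (f a).enc.reverse
    (st [] (g a).enc (f a).enc.reverse) (st [] ((f a).enc ++ (g a).enc) []) rfl (by simp)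
  have h6 := (Runs.push (st [] ((f a).enc ++ (g a).enc) []) 1 true).conv rfl
    (s₁' := st [] (T.node (f a) (g a)).enc []) (by simp [T.enc]) le_rfl
  have h7 := mv_runs (i := 1) (j := 2) (by decide) (T.node (f a) (g a)).enc
    (st [] (T.node (f a) (g a)).enc []) (st [] [] (T.node (f a) (g a)).enc.reverse) rfl (by simp)
  have h8 := mv_runs (i := 2) (j := 0) (by decide) (T.node (f a) (g a)).enc.reverse
    (st [] [] (T.node (f a) (g a)).enc.reverse) (st (T.node (f a) (g a)).enc [] []) rfl (by simp)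
  refine (h1.seq (h2.seq (h3.seq (h4.seq (h5.seq (h6.seq (h7.seq h8))))))).mono ?_
  have e1 := hq a
  have e2 := hq' a
  simp only [T.enc, List.length_reverse, List.length_cons, List.length_append,
    Polynomial.eval_add, Polynomial.eval_mul, Polynomial.eval_C, Polynomial.eval_X]
  have hA : 2 ^ (C * E a) ≤ 2 ^ ((C + C' + K + K') * E a) :=
    Nat.pow_le_pow_right (by norm_num) (Nat.mul_le_mul_right _ (by omega))
  have hB : 2 ^ (C' * E a) ≤ 2 ^ ((C + C' + K + K') * E a) :=
    Nat.pow_le_pow_right (by norm_num) (Nat.mul_le_mul_right _ (by omega))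
  have hU : 2 ^ (K * E a) ≤ 2 ^ ((C + C' + K + K') * E a) :=
    Nat.pow_le_pow_right (by norm_num) (Nat.mul_le_mul_right _ (by omega))
  have hV : 2 ^ (K' * E a) ≤ 2 ^ ((C + C' + K + K') * E a) :=
    Nat.pow_le_pow_right (by norm_num) (Nat.mul_le_mul_right _ (by omega))
  have hW : 1 ≤ 2 ^ ((C + C' + K + K') * E a) := Nat.one_le_two_pow
  generalize 2 ^ ((C + C' + K + K') * E a) = W at *
  generalize (ea a).length = x at *
  generalize Polynomial.eval x p = P at *
  generalize Polynomial.eval x r = R at *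
  generalize Polynomial.eval x q = Q at *
  generalize Polynomial.eval x q' = Q' at *
  generalize (f a).enc.length = F at *
  generalize (g a).enc.length = G at *
  generalize 2 ^ (C * E a) = A at *
  generalize 2 ^ (C' * E a) = B at *
  generalize 2 ^ (K * E a) = U at *
  generalize 2 ^ (K' * E a) = V at *
  have g1 : A * P ≤ W * P := Nat.mul_le_mul_right _ hA
  have g2 : B * R ≤ W * R := Nat.mul_le_mul_right _ hB
  have g3 : U * Q ≤ W * Q := Nat.mul_le_mul_right _ hU
  have g4 : V * Q' ≤ W * Q' := Nat.mul_le_mul_right _ hV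
  have g5 : 9 * x ≤ W * (9 * x) := Nat.le_mul_of_pos_left _ (by omega)
  have g6 : 30 ≤ W * 30 := Nat.le_mul_of_pos_left _ (by omega)
  have g7 : W * (9 * x + P + R + 16 * (Q + Q') + 30) =
    W * (9 * x) + W * P + W * R + 16 * (W * Q) + 16 * (W * Q') + W * 30 := by ring
  rw [g7]
  omega

theorem ECPAIR : S_ECPAIR := by
  intro α γ _ _ E f hf
  have hid : EC (bits : α → List Bool) (bits : α → List Bool) E (fun a => a) :=
    EC.of_PC E Poly.id
  exact EC.node (f := fun a => toT a) (g := fun a => toT (f a)) hid hf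

end Pool.Agent.NPC.H876SC
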